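import Pool.Agent.Lib_helper96.Legendre

/-!
# `max_a Z_p(a) = M_p`; equivalence of Q1 and Q2 (MP_de1e57_nt)
-/

namespace Pool.Agent.Results.MP_de1e57_nt.EquivQ1Q2

open Pool.Agent.Lib_helper96.Legendre

/-- For every odd prime `p`, `M_p` is the maximum of `Z_p(a)` over `a ∈ 𝔽_p`; consequently, for
each exponent `A`, the bound of Q1 holds with exponent `A` iff the bound of Q2 does. -/
theorem result :
    (∀ (p : ℕ) [Fact p.Prime], p ≠ 2 → (∀ a : ZMod p, Z p a ≤ M p) ∧ ∃ a : ZMod p, Z p a = M p) ∧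
    (∀ A C : ℝ,
      ((∀ (p : ℕ) [Fact p.Prime], p ≠ 2 → ∀ a : ZMod p,
          (Z p a : ℝ) ≤ C * Real.sqrt p * (Real.log p) ^ A) ↔
       (∀ (p : ℕ) [Fact p.Prime], p ≠ 2 →
          (M p : ℝ) ≤ C * Real.sqrt p * (Real.log p) ^ A))) := by
  refine ⟨fun p _ hp => ⟨Z_le_M p hp, exists_Z p hp⟩, fun A C => ⟨?_, ?_⟩⟩
  · intro h p _ hp
    obtain ⟨a, ha⟩ := exists_Z p hp
    rw [← ha]
    exact h p hp a
  · intro h p _ hp a
    have h1 : (Z p a : ℝ) ≤ (M p : ℝ) := by exact_mod_cast Z_le_M p hp a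
    exact h1.trans (h p hp)

end Pool.Agent.Results.MP_de1e57_nt.EquivQ1Q2
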