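import Pool.Agent.Lib_helper96.Legendre

/-!
# `M_p > √p` (MP_de1e57_nt)

The walk `t ↦ Ψ(0,t)` is regarded as a function on `ℤ/p` (its total sum is `0`).  Since
`∑_x χ(x)χ(x+d) = -1` for `d ≠ 0`, one has the exact identity
`∑_{s,t} (Ψ(0,t) - Ψ(0,s))² = ∑_{h<p} h(p-h) = p(p²-1)/6`, that is
`∑_t (Ψ(0,t) - mean)² = (p²-1)/12`.  An integer valued sequence of length `p` all of whose level
sets have at most `M` elements has `∑ (w - mean)² ≥ p³/(12M²) - p/12` (bathtub principle).
Comparing, `p³ ≤ M²(p²+p-1)`, whence `M² > p`.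
-/

namespace Pool.Agent.Results.MP_de1e57_nt.LevelLowerBound

open Pool.Agent.Lib_helper96.Legendre

/-- For every odd prime `p`, the most visited level of `t ↦ Ψ(0,t)` is visited more than `√p`
times, and some `Z_p(a)` exceeds `√p`. -/
theorem result (p : ℕ) [Fact p.Prime] (hp : p ≠ 2) :
    p < (M p) ^ 2 ∧ ∃ a : ZMod p, p < (Z p a) ^ 2 := by
  have h := main_bound p hp (M p) (fun h => level_le_M p h)
  obtain ⟨a, ha⟩ := exists_Z p hp
  exact ⟨h, a, by rw [ha]; exact h⟩

end Pool.Agent.Results.MP_de1e57_nt.LevelLowerBound
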