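import Pool.Agent.LGP.Lan
import Pool.Agent.LGP.Low
import Pool.Agent.LGP.Zet
import Pool.Agent.LGP.Ser
import Pool.Agent.LGP.Main
import Pool.Agent.LGP.Pair
import Pool.Agent.LGP.Der
import Pool.Agent.LGP.Cut
import Pool.Agent.LGP.Exi
import Pool.Agent.LGP.Tow
import Pool.Agent.LGP.Imi
import Pool.Agent.LGP.Msq
import Pool.Agent.LGP.Lev
import Pool.Agent.LGP.Asm

/-!
# `M_p ≥ B √p (log p)^(1/7)` for infinitely many primes `p` (MP_de1e57_nt)

There are primes `p` with `log p ≤ C y²` such that the Legendre symbol modulo `p` agrees with the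
completely multiplicative function `f` with `f(5) = 1`, `f(r) = (r/5)` at all primes `r ≤ y`,
except possibly one prime in `(y/2, y]`, for infinitely many `y`.  (Landau's lemma for real
characters near `1`, Borel–Carathéodory and Cauchy estimates for the derivatives of `L'/L`; an
exceptional character is made harmless by dropping the condition at one prime factor of its
conductor.)  By Parseval the Legendre walk is then in mean square within `O(√(p/y))` of
`√(p/5) Σ_k 5^(-k) W(5^k ·)`, `W` the step walk modulo `5`, which is within `5^(-K)` of a constant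
on the set of times whose first `K` digits in base `5` are `0`, `2` or `4`, of measure `(3/5)^K`.
-/

set_option autoImplicit false

namespace Pool.Agent.Results.MP_de1e57_nt.LogPower

open Pool.Agent.Lib_helper96.Legendre Pool.Agent.LGP

/-- For every real `B` there are arbitrarily large primes `p` with `M_p > B √p (log p)^(1/7)`, and
with `Z_p(a) > B √p (log p)^(1/7)` for some `a ∈ F_p`. -/
theorem result (B : ℝ) (N : ℕ) :
    ∃ (p : ℕ) (_ : Fact p.Prime), N < p ∧ p ≠ 2 ∧
      B * (Real.sqrt p * Real.log p ^ (1 / 7 : ℝ)) < M p ∧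
      ∃ a : ZMod p, B * (Real.sqrt p * Real.log p ^ (1 / 7 : ℝ)) < Z p a :=
  ASM_thm (EXI_thm SER_thm (MAIN_thm SER_thm) (DER_thm LOW_thm) (CUT_thm ZET_thm SER_thm))
    (TOW_thm (PAIR_thm LAN_thm LOW_thm ZET_thm)) IMI_thm MSQ_thm LEV_thm B N

end Pool.Agent.Results.MP_de1e57_nt.LogPower
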