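import Pool.Agent.LVL.Final
import Pool.Agent.LVL.WeilA
import Pool.Agent.LVL.WeilB
import Pool.Agent.LVL.Moments
import Pool.Agent.LVL.Tree
import Pool.Agent.LVL.Disj
import Pool.Agent.LVL.Test

/-!
# `M_p, Z_p(a) ≤ 4 p exp (-c √(log p))` (MP_de1e57_nt)

Multi-scale argument: in a window of length `B^j`, with large probability, no level of the walk is
visited in all of its `B` subwindows. The joint distribution of these events at `c √(log p)`
scales is controlled by polynomials of degree 8 (one for each scale) and the Weil bound for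
products of shifts of the quadratic character, which is proved by Stepanov's method.
-/

namespace Pool.Agent.Results.MP_de1e57_nt.UpperBound

open Pool.Agent.Lib_helper96.Legendre Pool.Agent.LVL

/-- There is `c > 0` such that, for every odd prime `p`, every level set of the walk
`t ↦ Ψ(0,t)` and every set of zeros of `t ↦ Ψ(a,t)` has at most `4 p exp (-c √(log p))`
elements. -/
theorem result : ∃ c : ℝ, 0 < c ∧ ∀ (p : ℕ) [Fact p.Prime], p ≠ 2 →
    (M p : ℝ) ≤ 4 * p * Real.exp (-(c * Real.sqrt (Real.log p))) ∧
    ∀ a : ZMod p, (Z p a : ℝ) ≤ 4 * p * Real.exp (-(c * Real.sqrt (Real.log p))) := by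
  refine ⟨1 / 10 ^ 8, by norm_num, fun p _ hp => ?_⟩
  have hT := test
  have key : ∀ (a : ZMod p) (h : ℤ), _ :=
    fun a h => psi_bound (weil nonvanish deriv) moments (tree hT) disj p hp a h
  have hZ : ∀ a : ZMod p, (Z p a : ℝ) ≤
      4 * p * Real.exp (-(1 / 10 ^ 8 * Real.sqrt (Real.log p))) := fun a => key a 0
  obtain ⟨a, ha⟩ := exists_Z p hp
  exact ⟨by rw [← ha]; exact hZ a, hZ⟩

end Pool.Agent.Results.MP_de1e57_nt.UpperBound
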